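import Pool.Agent.Q22.GO.Stm

set_option autoImplicit false

/-!
# Project GO: job FRL (finite rank over a line)
-/

namespace Pool.Agent.Q186.GO

open H113G Metric Set Topology Filter Pool.Agent.Q22.GO

noncomputable section

/-- logarithms on convex open plane sets -/
lemma hasLog_convex {K : Set ℂ} (hK : IsOpen K) (hc : Convex ℝ K) {g : ℂ → ℂ}
    (hg : ContinuousOn g K) (h0 : ∀ z ∈ K, g z ≠ 0) :
    ∃ L : ℂ → ℂ, ContinuousOn L K ∧ ∀ z ∈ K, Complex.exp (L z) = g z := by
  rcases K.eq_empty_or_nonempty with he | hne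
  · subst he
    exact ⟨0, continuousOn_empty _, fun z hz => absurd hz (Set.notMem_empty z)⟩
  · have hsc : IsSimplyConnected K := by
      have : ContractibleSpace K := hc.contractibleSpace hne
      show SimplyConnectedSpace K
      infer_instance
    obtain ⟨L, hL, hE⟩ := Complex.exists_continuousOn_eqOn_exp_comp hsc hK hg (by
      rintro ⟨z, hz, hz0⟩
      exact h0 z hz hz0)
    exact ⟨L, hL, fun z hz => hE hz⟩

/-- the roots of `t ↦ δ (t v)` -/
lemma exists_roots {k : ℕ} (δ : MvPolynomial (Fin k) ℂ)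
    (h0 : MvPolynomial.eval (0 : Fin k → ℂ) δ ≠ 0) (v : Fin k → ℂ) :
    ∃ F : Finset ℂ, ∀ t : ℂ, MvPolynomial.eval (t • v) δ = 0 ↔ t ∈ F := by
  classical
  set P : Polynomial ℂ :=
    MvPolynomial.aeval (fun i => Polynomial.C (v i) * Polynomial.X) δ with hP
  have hev : ∀ t : ℂ, P.eval t = MvPolynomial.eval (t • v) δ := by
    intro t
    have h1 : (Polynomial.aeval t : Polynomial ℂ →ₐ[ℂ] ℂ).comp
        (MvPolynomial.aeval (fun i => Polynomial.C (v i) * Polynomial.X)) =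
        MvPolynomial.aeval (fun i => (t • v) i) := by
      apply MvPolynomial.algHom_ext
      intro i
      rw [AlgHom.comp_apply, MvPolynomial.aeval_X, MvPolynomial.aeval_X,
        Polynomial.coe_aeval_eq_eval, Polynomial.eval_mul, Polynomial.eval_C, Polynomial.eval_X,
        Pi.smul_apply, smul_eq_mul]
      exact mul_comm _ _
    have h2 := congrArg (fun φ : MvPolynomial (Fin k) ℂ →ₐ[ℂ] ℂ => φ δ) h1
    simp only [AlgHom.comp_apply, Polynomial.coe_aeval_eq_eval] at h2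
    rw [hP, h2]
    rfl
  have hP0 : P ≠ 0 := by
    intro hc
    apply h0
    have := hev 0
    rw [hc, Polynomial.eval_zero, zero_smul] at this
    exact this.symm
  refine ⟨P.roots.toFinset, fun t => ?_⟩
  rw [Multiset.mem_toFinset, Polynomial.mem_roots hP0, Polynomial.IsRoot, hev]

/-- Job FRL. -/
theorem t_FRL (cvx : S_CVX) (gc : S_GC) (sheet : S_SHEET) : S_FRL := by
  intro m k Y pr δ e hC v hv
  obtain ⟨F, hF⟩ := exists_roots δ hC.base v
  obtain ⟨N, K, hKo, hKc, hKU⟩ := cvx F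
  have hKF : ∀ i, ∀ t ∈ K i, MvPolynomial.eval (t • v) δ ≠ 0 := by
    intro i t ht h0
    have h1 : t ∈ (F : Set ℂ)ᶜ := by
      rw [← hKU]
      exact mem_iUnion.mpr ⟨i, ht⟩
    exact h1 ((hF t).mp h0)
  have hsh : ∀ i : Fin N, ∃ s : Fin e → ℂ → (Fin m → ℂ),
      (∀ l, DifferentiableOn ℂ (s l) (K i)) ∧
      ∀ t ∈ K i, Function.Injective (fun l => s l t) ∧
        {y | y ∈ Y ∧ pr y = t • v} = Set.range (fun l => s l t) := fun i =>
    sheet m k Y pr δ e hC (K i) (fun t => t • v) (hKo i) (hKc i)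
      ((differentiable_id.smul_const v).differentiableOn) (hKF i)
  choose s hsd hs2 using hsh
  have hsinj : ∀ i, ∀ t ∈ K i, ∀ l l', s i l t = s i l' t → l = l' := fun i t ht l l' h =>
    (hs2 i t ht).1 h
  have hsmem : ∀ i l, ∀ t ∈ K i, s i l t ∈ Y ∧ pr (s i l t) = t • v := by
    intro i l t ht
    have : s i l t ∈ {y | y ∈ Y ∧ pr y = t • v} := by
      rw [(hs2 i t ht).2]
      exact ⟨l, rfl⟩
    exact this
  have hsex : ∀ i, ∀ t ∈ K i, ∀ y ∈ Y, pr y = t • v → ∃ l, s i l t = y := by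
    intro i t ht y hy hpy
    have : y ∈ {y | y ∈ Y ∧ pr y = t • v} := ⟨hy, hpy⟩
    rw [(hs2 i t ht).2] at this
    exact this
  -- the coordinate on the line
  obtain ⟨j0, hj0⟩ : ∃ j, v j ≠ 0 := by
    by_contra hcon
    push Not at hcon
    exact hv (funext hcon)
  set τ : (Fin m → ℂ) → ℂ := fun y => pr y j0 / v j0 with hτ
  have hτc : Continuous τ := ((continuous_apply j0).comp hC.diff.continuous).div_const _
  have hτv : ∀ y, ∀ t : ℂ, pr y = t • v → τ y = t := by
    intro y t h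
    simp only [hτ]
    rw [h, Pi.smul_apply, smul_eq_mul]
    field_simp
  have hτs : ∀ i l, ∀ t ∈ K i, τ (s i l t) = t := fun i l t ht => hτv _ _ (hsmem i l t ht).2
  -- the pieces and the open sets
  set V : Fin N × Fin e → Set (Fin m → ℂ) := fun p => s p.1 p.2 '' K p.1 with hV
  set O : Fin N × Fin e → Set (Fin m → ℂ) := fun p =>
    {y | τ y ∈ K p.1 ∧ ∀ l', l' ≠ p.2 → y ≠ s p.1 l' (τ y)} with hO
  have hOo : ∀ p, IsOpen (O p) := by
    intro p
    have h1 : O p = ⋂ l' : Fin e, {y | τ y ∈ K p.1 ∧ (l' ≠ p.2 → y ≠ s p.1 l' (τ y))} ∩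
        {y | τ y ∈ K p.1} := by
      ext y
      simp only [hO, mem_iInter, mem_inter_iff, mem_ofPred_eq]
      constructor
      · rintro ⟨h2, h3⟩ l'
        exact ⟨⟨h2, h3 l'⟩, h2⟩
      · intro h2
        refine ⟨?_, fun l' => (h2 l').1.2⟩
        exact (h2 p.2).2
    rw [h1]
    refine isOpen_iInter_of_finite fun l' => ?_
    have hK' : IsOpen {y | τ y ∈ K p.1} := (hKo p.1).preimage hτc
    refine IsOpen.inter ?_ hK'
    by_cases hl : l' ≠ p.2
    · have h2 : {y | τ y ∈ K p.1 ∧ (l' ≠ p.2 → y ≠ s p.1 l' (τ y))} =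
          {y | τ y ∈ K p.1} ∩ (fun y => y - s p.1 l' (τ y)) ⁻¹' {0}ᶜ := by
        ext y
        simp only [mem_ofPred_eq, mem_inter_iff, mem_preimage, mem_compl_iff, mem_singleton_iff,
          sub_eq_zero]
        constructor
        · rintro ⟨h3, h4⟩
          exact ⟨h3, h4 hl⟩
        · rintro ⟨h3, h4⟩
          exact ⟨h3, fun _ => h4⟩
      rw [h2]
      refine ContinuousOn.isOpen_inter_preimage ?_ hK' isOpen_compl_singleton
      refine continuousOn_id.sub ?_
      exact (hsd p.1 l').continuousOn.comp hτc.continuousOn fun y hy => hy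
    · have h2 : {y | τ y ∈ K p.1 ∧ (l' ≠ p.2 → y ≠ s p.1 l' (τ y))} = {y | τ y ∈ K p.1} := by
        ext y
        simp only [mem_ofPred_eq]
        exact ⟨fun h => h.1, fun h => ⟨h, fun h3 => absurd h3 hl⟩⟩
      rw [h2]
      exact hK'
  have hVO : ∀ p, V p = Ln Y pr δ v ∩ O p := by
    intro p
    ext y
    constructor
    · rintro ⟨t, ht, rfl⟩
      obtain ⟨h1, h2⟩ := hsmem p.1 p.2 t ht
      refine ⟨⟨h1, ⟨t, h2⟩, ?_⟩, ?_, ?_⟩
      · rw [h2]
        exact hKF p.1 t ht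
      · show τ (s p.1 p.2 t) ∈ K p.1
        rw [hτs p.1 p.2 t ht]
        exact ht
      · intro l' hl' h3
        rw [hτs p.1 p.2 t ht] at h3
        exact hl' (hsinj p.1 t ht _ _ h3.symm)
    · rintro ⟨⟨h1, ⟨t, h2⟩, h3⟩, h4, h5⟩
      have ht : τ y = t := hτv y t h2
      rw [ht] at h4
      obtain ⟨l, hl⟩ := hsex p.1 t h4 y h1 h2
      by_cases hlp : l = p.2
      · exact ⟨t, h4, by rw [← hlp]; exact hl⟩
      · exact absurd (by rw [ht]; exact hl.symm) (h5 l hlp)
  have hLV : Ln Y pr δ v = ⋃ p, V p := by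
    ext y
    constructor
    · rintro ⟨h1, ⟨t, h2⟩, h3⟩
      rw [h2] at h3
      have h4 : t ∈ (F : Set ℂ)ᶜ := fun h => h3 ((hF t).mpr h)
      rw [← hKU] at h4
      obtain ⟨i, hi⟩ := mem_iUnion.mp h4
      obtain ⟨l, hl⟩ := hsex i t hi y h1 h2
      exact mem_iUnion.mpr ⟨(i, l), ⟨t, hi, hl⟩⟩
    · intro h
      obtain ⟨p, hp⟩ := mem_iUnion.mp h
      rw [hVO p] at hp
      exact hp.1
  have hdisj : ∀ i l l', l ≠ l' → ∀ y, y ∈ V (i, l) → y ∉ V (i, l') := by
    rintro i l l' hll y ⟨t, ht, rfl⟩ ⟨t', ht', h⟩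
    simp only at h ht ht'
    have h1 := hτs i l t ht
    have h2 := hτs i l' t' ht'
    rw [h, h1] at h2
    subst h2
    exact hll (hsinj i t ht _ _ h.symm)
  -- intersections
  have hpre : ∀ p p', IsPreconnected (V p ∩ V p') := by
    rintro ⟨i, l⟩ ⟨j, l'⟩
    set P : Set (Fin m → ℂ) := s i l '' (K i ∩ K j) with hPdef
    have hPc : IsPreconnected P := by
      refine IsPreconnected.image ?_ _ ((hsd i l).continuousOn.mono inter_subset_left)
      exact ((hKc i).inter (hKc j)).isPreconnected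
    have hPV : P ⊆ V (i, l) := image_mono inter_subset_left
    have hPL : P ⊆ Ln Y pr δ v := fun y hy => by
      have := hPV hy
      rw [hVO] at this
      exact this.1
    have hsub : V (i, l) ∩ V (j, l') ⊆ P := by
      rintro y ⟨⟨t, ht, rfl⟩, ⟨t', ht', h⟩⟩
      simp only at h ht ht'
      have h1 := hτs i l t ht
      have h2 := hτs j l' t' ht'
      rw [h, h1] at h2
      subst h2
      exact ⟨t, ⟨ht, ht'⟩, rfl⟩
    have hcov : P ⊆ O (j, l') ∪ ⋃ l'' : {x : Fin e // x ≠ l'}, O (j, l''.1) := by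
      rintro y ⟨t, ⟨ht, htj⟩, rfl⟩
      obtain ⟨h1, h2⟩ := hsmem i l t ht
      obtain ⟨l2, hl2⟩ := hsex j t htj _ h1 h2
      have h3 : s i l t ∈ V (j, l2) := ⟨t, htj, hl2⟩
      rw [hVO] at h3
      by_cases hh : l2 = l'
      · left
        rw [← hh]
        exact h3.2
      · right
        exact mem_iUnion.mpr ⟨⟨l2, hh⟩, h3.2⟩
    have hempty : ∀ y ∈ P, y ∈ O (j, l') → y ∉ ⋃ l'' : {x : Fin e // x ≠ l'}, O (j, l''.1) := by
      intro y hy h1 h2
      obtain ⟨l'', h3⟩ := mem_iUnion.mp h2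
      have h4 : y ∈ V (j, l') := by
        rw [hVO]
        exact ⟨hPL hy, h1⟩
      have h5 : y ∈ V (j, l''.1) := by
        rw [hVO]
        exact ⟨hPL hy, h3⟩
      exact hdisj j l' l''.1 (Ne.symm l''.2) y h4 h5
    by_cases hA : (P ∩ O (j, l')).Nonempty
    · by_cases hB : (P ∩ ⋃ l'' : {x : Fin e // x ≠ l'}, O (j, l''.1)).Nonempty
      · obtain ⟨y, hy, h1, h2⟩ := hPc (O (j, l')) _ (hOo _) (isOpen_iUnion fun _ => hOo _)
          hcov hA hB
        exact absurd h2 (hempty y hy h1)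
      · have : V (i, l) ∩ V (j, l') = P := by
          refine Subset.antisymm hsub fun y hy => ⟨hPV hy, ?_⟩
          rcases hcov hy with h1 | h1
          · rw [hVO]
            exact ⟨hPL hy, h1⟩
          · exact absurd ⟨y, hy, h1⟩ hB
        rw [this]
        exact hPc
    · have : V (i, l) ∩ V (j, l') = ∅ := by
        rw [eq_empty_iff_forall_notMem]
        intro y hy
        apply hA
        refine ⟨y, hsub hy, ?_⟩
        have := hy.2
        rw [hVO] at this
        exact this.2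
      rw [this]
      exact isPreconnected_empty
  -- logarithms
  have hlog : ∀ p, ∀ g : (Fin m → ℂ) → ℂ, ContinuousOn g (V p) → (∀ y ∈ V p, g y ≠ 0) →
      HasLog (V p) g := by
    intro p g hg hg0
    obtain ⟨L, hL, hE⟩ := hasLog_convex (hKo p.1) (hKc p.1) (g := fun t => g (s p.1 p.2 t))
      (hg.comp (hsd p.1 p.2).continuousOn fun t ht => ⟨t, ht, rfl⟩)
      (fun t ht => hg0 _ ⟨t, ht, rfl⟩)
    refine ⟨fun y => L (τ y), ?_, ?_⟩
    · refine hL.comp hτc.continuousOn ?_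
      rintro y ⟨t, ht, rfl⟩
      rw [hτs p.1 p.2 t ht]
      exact ht
    · rintro y ⟨t, ht, rfl⟩
      simp only
      rw [hτs p.1 p.2 t ht]
      exact hE t ht
  set ι := finProdFinEquiv (m := N) (n := e) with hι
  refine ⟨(N * e) * (N * e), gc (Fin m → ℂ) (Ln Y pr δ v) (N * e) (fun x => V (ι.symm x)) ?_ ?_
    ?_ ?_⟩
  · rw [hLV]
    ext y
    simp only [mem_iUnion]
    constructor
    · rintro ⟨p, hp⟩
      exact ⟨ι p, by rw [Equiv.symm_apply_apply]; exact hp⟩
    · rintro ⟨x, hx⟩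
      exact ⟨_, hx⟩
  · intro x
    exact ⟨O (ι.symm x), hOo _, hVO _⟩
  · intro x g hg hg0
    exact hlog _ g hg hg0
  · intro x x'
    exact hpre _ _

end

end Pool.Agent.Q186.GO
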