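import Pool.Agent.Q22.GO.Stm

set_option autoImplicit false

/-!
# Project GO: job ND (nondegeneracy)
-/

namespace Pool.Agent.Q186.GO

open H113G Metric Set Topology Filter Pool.Agent.Q22.GO

noncomputable section

lemma holOn_comp {m : ℕ} {Y : Set (Fin m → ℂ)} {u : (Fin m → ℂ) → ℂ} (hu : HolOn Y u)
    {Λ : ℂ → (Fin m → ℂ)} {S : Set ℂ} (hS : IsOpen S) (hΛ : DifferentiableOn ℂ Λ S)
    (hY : ∀ s ∈ S, Λ s ∈ Y) : DifferentiableOn ℂ (fun s => u (Λ s)) S := by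
  intro s hs
  obtain ⟨U, hU, hsU, h, hh, heq⟩ := hu (Λ s) (hY s hs)
  have hd : DifferentiableAt ℂ Λ s := (hΛ s hs).differentiableAt (hS.mem_nhds hs)
  have hd2 : DifferentiableAt ℂ h (Λ s) := (hh _ hsU).differentiableAt (hU.mem_nhds hsU)
  have hd3 : DifferentiableAt ℂ (fun x => h (Λ x)) s := hd2.comp s hd
  apply DifferentiableAt.differentiableWithinAt
  refine hd3.congr_of_eventuallyEq ?_
  filter_upwards [hS.mem_nhds hs, hd.continuousAt.preimage_mem_nhds (hU.mem_nhds hsU)] with x hx hx2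
  exact (heq (Λ x) (hY x hx) hx2).symm

lemma exists_common {n : ℕ} (r : Fin n → ℝ) (hr : ∀ j, 0 < r j) :
    ∃ R : ℝ, 0 < R ∧ ∀ j, R ≤ r j := by
  have : ∀ᶠ R in 𝓝[>] (0 : ℝ), ∀ j, R < r j := by
    rw [Filter.eventually_all]
    intro j
    filter_upwards [Ioo_mem_nhdsGT (hr j)] with R hR
    exact hR.2
  obtain ⟨R, hR, hR0⟩ := (this.and self_mem_nhdsWithin).exists
  exact ⟨R, hR0, fun j => (hR j).le⟩

section

variable {m k : ℕ} {Y : Set (Fin m → ℂ)} {pr : (Fin m → ℂ) → (Fin k → ℂ)}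
  {δ : MvPolynomial (Fin k) ℂ} {e : ℕ} {v : Fin k → ℂ} {c : ℝ} {κ : ℕ}
  {Λ : Fin e → ℂ → (Fin m → ℂ)}

lemma end_mem (hE : EndLift Y pr δ e v c κ Λ) (i : Fin e) {s : ℂ} (hs : c < s.re) :
    Λ i s ∈ Y ∧ pr (Λ i s) = Complex.exp s • v := by
  have : Λ i s ∈ {y | y ∈ Y ∧ pr y = Complex.exp s • v} := by
    rw [hE.fib s hs]
    exact ⟨i, rfl⟩
  exact this

lemma end_mem_Ln (hE : EndLift Y pr δ e v c κ Λ) (i : Fin e) {s : ℂ} (hs : c < s.re) :
    Λ i s ∈ Ln Y pr δ v := by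
  obtain ⟨h1, h2⟩ := end_mem hE i hs
  refine ⟨h1, ⟨_, h2⟩, ?_⟩
  rw [h2]
  exact hE.ne s hs

end

lemma isOpen_half (c : ℝ) : IsOpen {s : ℂ | c < s.re} :=
  isOpen_lt continuous_const Complex.continuous_re

lemma prod_zpow_sum {n : ℕ} {q : ℂ} (hq : q ≠ 0) (S : Finset (Fin n)) (e : Fin n → ℤ) :
    ∏ j ∈ S, q ^ e j = q ^ ∑ j ∈ S, e j := by
  classical
  induction S using Finset.induction_on with
  | empty => simp
  | insert a S ha ih => rw [Finset.prod_insert ha, Finset.sum_insert ha, ih, zpow_add₀ hq]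

/-- a product of powers of functions with orders `o j`, `∑ a j o j = 0`, is bounded at the end -/
lemma bounded_end {n : ℕ} {c R : ℝ} {κ : ℕ} (hκ : 0 < κ) (hR : 0 < R) {f ψ : Fin n → ℂ → ℂ}
    {o : Fin n → ℤ} (hψ : ∀ j, DifferentiableOn ℂ (ψ j) (ball 0 R))
    (hψ0 : ∀ j, ∀ q ∈ ball (0 : ℂ) R, ψ j q ≠ 0)
    (hf : ∀ j, ∀ s : ℂ, c < s.re → ‖Complex.exp (-(s / κ))‖ < R →
      f j s = Complex.exp (-(s / κ)) ^ o j * ψ j (Complex.exp (-(s / κ))))
    (a : Fin n → ℤ) (ha : ∑ j, a j * o j = 0) :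
    ∃ C c' : ℝ, ∀ s : ℂ, c' < s.re → ‖∏ j, f j s ^ a j‖ ≤ C := by
  have hsub : closedBall (0 : ℂ) (R / 2) ⊆ ball 0 R := closedBall_subset_ball (by linarith)
  have hcont : ContinuousOn (fun q : ℂ => ∏ j, ψ j q ^ a j) (closedBall (0 : ℂ) (R / 2)) := by
    refine continuousOn_finsetProd _ fun j _ => ?_
    exact ((hψ j).continuousOn.mono hsub).zpow₀ (a j) fun q hq => Or.inl (hψ0 j q (hsub hq))
  obtain ⟨C, hC⟩ := (isCompact_closedBall (0 : ℂ) (R / 2)).exists_bound_of_continuousOn hcont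
  have hκ' : (0 : ℝ) < κ := by exact_mod_cast hκ
  refine ⟨C, max c (-(κ * Real.log (R / 2))), fun s hs => ?_⟩
  have hs1 : c < s.re := lt_of_le_of_lt (le_max_left _ _) hs
  have hs2 : -(κ * Real.log (R / 2)) < s.re := lt_of_le_of_lt (le_max_right _ _) hs
  have hnorm : ‖Complex.exp (-(s / κ))‖ ≤ R / 2 := by
    rw [Complex.norm_exp]
    have hre : (-(s / (κ : ℂ))).re = -(s.re / κ) := by
      rw [Complex.neg_re]
      congr 1
      rw [show (κ : ℂ) = ((κ : ℝ) : ℂ) by norm_cast, Complex.div_ofReal_re]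
    rw [hre, ← Real.le_log_iff_exp_le (by linarith)]
    have h1 : -(Real.log (R / 2)) < s.re / κ := by
      rw [lt_div_iff₀ hκ']
      linarith
    linarith
  have hq : Complex.exp (-(s / κ)) ∈ closedBall (0 : ℂ) (R / 2) := by
    rw [mem_closedBall_zero_iff]
    exact hnorm
  have hlt : ‖Complex.exp (-(s / κ))‖ < R := by linarith
  have hq0 : Complex.exp (-(s / κ)) ≠ 0 := Complex.exp_ne_zero _
  have heq : ∏ j, f j s ^ a j = ∏ j, ψ j (Complex.exp (-(s / κ))) ^ a j := by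
    rw [Finset.prod_congr rfl (fun j _ => by rw [hf j s hs1 hlt, mul_zpow, ← zpow_mul]),
      Finset.prod_mul_distrib]
    have h3 : ∏ j, Complex.exp (-(s / κ)) ^ (o j * a j) = 1 := by
      rw [prod_zpow_sum hq0]
      rw [show ∑ j, o j * a j = 0 by rw [← ha]; exact Finset.sum_congr rfl fun j _ => mul_comm _ _,
        zpow_zero]
    rw [h3, one_mul]
  rw [heq]
  exact hC _ hq

/-- Job ND. -/
theorem t_ND (ord : S_ORD) (idl : S_IDL) (en : S_END) (rat : S_RAT) (tup : S_TUP) (bdd : S_BDD)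
    (liou : S_LIOU) : S_ND := by
  intro m k Y pr δ e hC v c κ Λ hv hE hpre n u hu hind g hg hg01 hgn mm nn c1 c2 h1 h2
  have hopen := isOpen_half c
  have hfd : ∀ (i : Fin e) (j : Fin n),
      DifferentiableOn ℂ (fun x => u j (Λ i x)) {s : ℂ | c < s.re} := fun i j =>
    holOn_comp (hu j).1 hopen (hE.diff i) fun s hs => (end_mem hE i hs).1
  have hf0 : ∀ (i : Fin e) (j : Fin n) (s : ℂ), c < s.re → u j (Λ i s) ≠ 0 := fun i j s hs =>
    (hu j).2.1 _ (end_mem hE i hs).1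
  have hord : ∀ (i : Fin e) (j : Fin n), ∃ (n : ℤ) (r : ℝ) (ψ : ℂ → ℂ), 0 < r ∧
      DifferentiableOn ℂ ψ (ball 0 r) ∧ (∀ q ∈ ball (0 : ℂ) r, ψ q ≠ 0) ∧
      ∀ s : ℂ, c < s.re → ‖Complex.exp (-(s / κ))‖ < r →
        u j (Λ i s) = Complex.exp (-(s / κ)) ^ n * ψ (Complex.exp (-(s / κ))) := fun i j =>
    ord c κ (fun x => u j (Λ i x)) hE.pos (hfd i j) (hf0 i j)
      (fun s hs => by simp only [hE.per i s hs]) ((hu j).2.2 i)
  choose o r ψ hr hψd hψ0 hform using hord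
  have hcom : ∀ i, ∃ R : ℝ, 0 < R ∧ ∀ j, R ≤ r i j := fun i => exists_common _ (hr i)
  choose R hR hRr using hcom
  have hψd' : ∀ i j, DifferentiableOn ℂ (ψ i j) (ball 0 (R i)) := fun i j =>
    (hψd i j).mono (ball_subset_ball (hRr i j))
  have hψ0' : ∀ i j, ∀ q ∈ ball (0 : ℂ) (R i), ψ i j q ≠ 0 := fun i j q hq =>
    hψ0 i j q (ball_subset_ball (hRr i j) hq)
  have hform' : ∀ i j, ∀ s : ℂ, c < s.re → ‖Complex.exp (-(s / κ))‖ < R i →
      u j (Λ i s) = Complex.exp (-(s / κ)) ^ o i j * ψ i j (Complex.exp (-(s / κ))) :=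
    fun i j s hs hs2 => hform i j s hs (lt_of_lt_of_le hs2 (hRr i j))
  have hend : ∀ i, (∀ s : ℂ, c < s.re → EE (fun j => (mm j : ℂ)) (fun j => (nn j : ℂ))
      (lg (fun j x => u j (Λ i x)) s) (lg' (fun j x => u j (Λ i x)) s) = 0) ∧
      ∀ μ ν : Fin n → ℂ, (∀ s : ℂ, c < s.re →
        dE (fun j => (mm j : ℂ)) (fun j => (nn j : ℂ)) μ ν (lg (fun j x => u j (Λ i x)) s)
          (lg' (fun j x => u j (Λ i x)) s) = 0) →
        ∑ j, μ j * (o i j : ℂ) = 0 ∧ ∑ j, ν j * (o i j : ℂ) = 0 := by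
    intro i
    refine en c (R i) κ n (fun j x => u j (Λ i x)) (ψ i) (fun x => g (Λ i x)) (o i) hE.pos (hR i)
      (hfd i) (hf0 i) (hψd' i) (hψ0' i) (hform' i)
      (holOn_comp hg hopen (hE.diff i) fun s hs => (end_mem hE i hs).1)
      (fun s hs => hg01 _ (end_mem hE i hs).1) ?_ mm nn c1 c2
      (fun s hs => h1 _ (end_mem_Ln hE i hs)) (fun s hs => h2 _ (end_mem_Ln hE i hs))
    intro a
    by_contra hcon
    push Not at hcon
    obtain ⟨y, hy, y', hy', hne⟩ := hgn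
    have := idl m k Y pr δ e hC v c κ Λ hv hE hpre g a i hg hcon
    exact hne ((this y hy).trans (this y' hy').symm)
  refine ⟨fun i => (hend i).1, ?_⟩
  intro μ ν hdE
  have hker : ∀ a : Fin n → ℤ, (∀ i, ∑ j, a j * o i j = 0) → a = 0 := by
    intro a ha
    apply hind
    have hTU := tup m e Y Λ n u hu a
    have hbd : ∀ i, ∃ C c' : ℝ, ∀ s : ℂ, c' < s.re → ‖∏ j, u j (Λ i s) ^ a j‖ ≤ C := fun i =>
      bounded_end (c := c) hE.pos (hR i) (f := fun j x => u j (Λ i x)) (hψd' i) (hψ0' i)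
        (hform' i) a (ha i)
    have hb2 := bdd m k Y pr δ e hC v c κ Λ hE (fun y => ∏ j, u j y ^ a j) hTU.1 hbd
    exact liou m k Y pr δ e hC v hv hpre (fun y => ∏ j, u j y ^ a j) hTU.1 hb2
  exact ⟨rat e n o hker μ fun i => ((hend i).2 μ ν (hdE i)).1,
    rat e n o hker ν fun i => ((hend i).2 μ ν (hdE i)).2⟩

end

end Pool.Agent.Q186.GO
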